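import Mathlib

/-!
# Graphs with three fixed-point-free involutions, and their `ℤ/2`-homology covers
-/

open Finset

namespace Pool.Agent.H73.HypE2

/-- the three generators -/
abbrev S := Fin 3

section generic

variable {α : Type*}

/-- the action of a word, first letter first -/
def act (τ : S → α → α) : List S → α → α
  | [], a => a
  | s :: w, a => act τ w (τ s a)

/-- reduced words -/
def Red (w : List S) : Prop := w.IsChain (· ≠ ·)

lemma act_append (τ : S → α → α) (w w' : List S) (a : α) :
    act τ (w ++ w') a = act τ w' (act τ w a) := by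
  induction w generalizing a with
  | nil => rfl
  | cons s w ih => exact ih (τ s a)

lemma act_reverse {τ : S → α → α} (hτ : ∀ s a, τ s (τ s a) = a) (w : List S) (a : α) :
    act τ w.reverse (act τ w a) = a := by
  induction w generalizing a with
  | nil => rfl
  | cons s w ih =>
    rw [List.reverse_cons, act_append]
    show τ s (act τ w.reverse (act τ w (τ s a))) = a
    rw [ih, hτ]

lemma Red.tail {s : S} {w : List S} (h : Red (s :: w)) : Red w := by
  cases w with
  | nil => exact .nil
  | cons t w => exact (List.isChain_cons_cons.1 h).2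

lemma red_reverse_append {s t : S} {w w' : List S} (h : Red (s :: w)) (h' : Red (t :: w'))
    (hst : s ≠ t) : Red ((s :: w).reverse ++ (t :: w')) := by
  unfold Red
  rw [List.isChain_append, List.isChain_reverse]
  refine ⟨?_, h', ?_⟩
  · exact List.IsChain.imp (fun _ _ h => h.symm) h
  · intro x hx y hy
    simp at hx hy
    rw [← hx, ← hy]
    exact hst

/-- short nontrivial reduced words have no fixed points -/
def Free (τ : S → α → α) (g : ℕ) : Prop :=
  ∀ w, Red w → w ≠ [] → w.length < g → ∀ a, act τ w a ≠ a

lemma uniq {τ : S → α → α} (hτ : ∀ s a, τ s (τ s a) = a) {g : ℕ} (hF : Free τ g) (w w' : List S)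
    (a : α) (hw : Red w) (hw' : Red w') (h : act τ w a = act τ w' a)
    (hlen : w.length + w'.length < g) : w = w' := by
  induction w generalizing w' a with
  | nil =>
    cases w' with
    | nil => rfl
    | cons t w' =>
      exact absurd h.symm (hF _ hw' (by simp) (by simpa using hlen) a)
  | cons s w ih =>
    cases w' with
    | nil => exact absurd h (hF _ hw (by simp) (by simpa using hlen) a)
    | cons t w' =>
      by_cases hst : s = t
      · subst hst
        simp only [List.length_cons] at hlen
        rw [ih w' (τ s a) hw.tail hw'.tail h (by omega)]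
      · exfalso
        refine hF _ (red_reverse_append hw hw' hst) (by simp) ?_ (act τ (s :: w) a) ?_
        · rw [List.length_append, List.length_reverse]
          exact hlen
        · rw [act_append, act_reverse hτ, h]

variable [DecidableEq α]

/-- the two entries of the edge between `a` and `b` with label `s` -/
def edge (s : S) (a b : α) : S × α → ZMod 2 :=
  fun p => (if p = (s, a) then 1 else 0) + (if p = (s, b) then 1 else 0)

/-- the edges crossed by the path of a word -/
def chain (τ : S → α → α) : List S → α → (S × α → ZMod 2)
  | [], _ => 0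
  | s :: w, a => edge s a (τ s a) + chain τ w (τ s a)

lemma edge_comm (s : S) (a b : α) : edge s a b = edge s b a := by
  funext p
  exact add_comm _ _

lemma fadd_self {β : Type*} (c : β → ZMod 2) : c + c = 0 := by
  funext p
  exact CharTwo.add_self_eq_zero _

lemma feq_of_add {β : Type*} {c c' : β → ZMod 2} (h : c + c' = 0) : c = c' := by
  have : c + c' + c' = c' := by rw [h, zero_add]
  rwa [add_assoc, fadd_self, add_zero] at this

lemma chain_append (τ : S → α → α) (w w' : List S) (a : α) :
    chain τ (w ++ w') a = chain τ w a + chain τ w' (act τ w a) := by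
  induction w generalizing a with
  | nil => simp [chain, act]
  | cons s w ih =>
    show edge s a (τ s a) + chain τ (w ++ w') (τ s a) = _
    rw [ih, ← add_assoc]
    rfl

lemma reduce {τ : S → α → α} (hτ : ∀ s a, τ s (τ s a) = a) (w : List S) :
    ∃ w', Red w' ∧ w'.length ≤ w.length ∧ ∀ a, act τ w' a = act τ w a ∧
      chain τ w' a = chain τ w a := by
  induction w with
  | nil => exact ⟨[], .nil, le_rfl, fun _ => ⟨rfl, rfl⟩⟩
  | cons s w ih =>
    obtain ⟨w', hred, hlen, hw⟩ := ih
    cases w' with
    | nil =>
      refine ⟨[s], .singleton s, by simp, fun a => ⟨(hw (τ s a)).1, ?_⟩⟩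
      show edge s a (τ s a) + chain τ [] (τ s a) = edge s a (τ s a) + chain τ w (τ s a)
      rw [(hw (τ s a)).2]
    | cons t w' =>
      by_cases hst : s = t
      · subst hst
        refine ⟨w', hred.tail, ?_, fun a => ⟨?_, ?_⟩⟩
        · simp only [List.length_cons] at hlen ⊢
          omega
        · show act τ w' a = act τ w (τ s a)
          rw [← (hw (τ s a)).1]
          show _ = act τ w' (τ s (τ s a))
          rw [hτ]
        · show chain τ w' a = edge s a (τ s a) + chain τ w (τ s a)
          rw [← (hw (τ s a)).2]
          show _ = edge s a (τ s a) + (edge s (τ s a) (τ s (τ s a)) + chain τ w' (τ s (τ s a)))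
          rw [hτ, edge_comm s (τ s a) a, ← add_assoc, fadd_self, zero_add]
      · refine ⟨s :: t :: w', List.isChain_cons_cons.2 ⟨hst, hred⟩, ?_, fun a => ⟨(hw (τ s a)).1, ?_⟩⟩
        · simp only [List.length_cons] at hlen ⊢
          omega
        · show edge s a (τ s a) + chain τ (t :: w') (τ s a) =
            edge s a (τ s a) + chain τ w (τ s a)
          rw [(hw (τ s a)).2]

/-- the involutions on the homology cover -/
def cov (τ : S → α → α) (s : S) (x : α × (S × α → ZMod 2)) : α × (S × α → ZMod 2) :=
  (τ s x.1, x.2 + edge s x.1 (τ s x.1))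

lemma act_cov (τ : S → α → α) (w : List S) (a : α) (c : S × α → ZMod 2) :
    act (cov τ) w (a, c) = (act τ w a, c + chain τ w a) := by
  induction w generalizing a c with
  | nil => simp [act, chain]
  | cons s w ih =>
    show act (cov τ) w (τ s a, c + edge s a (τ s a)) = _
    rw [ih, add_assoc]
    rfl

lemma cov_cov {τ : S → α → α} (hτ : ∀ s a, τ s (τ s a) = a) (s : S)
    (x : α × (S × α → ZMod 2)) : cov τ s (cov τ s x) = x := by
  obtain ⟨a, c⟩ := x
  simp only [cov, hτ]
  rw [edge_comm s (τ s a) a, add_assoc, fadd_self, add_zero]

lemma cov_ne {τ : S → α → α} (hne : ∀ s a, τ s a ≠ a) (s : S)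
    (x : α × (S × α → ZMod 2)) : cov τ s x ≠ x := by
  intro h
  exact hne s x.1 (congrArg Prod.fst h)

variable [Fintype α]

/-- the support -/
def supp (c : S × α → ZMod 2) : Finset (S × α) := univ.filter fun p => c p ≠ 0

lemma mem_supp {c : S × α → ZMod 2} {p : S × α} : p ∈ supp c ↔ c p ≠ 0 := by
  simp [supp]

lemma supp_add_le (c c' : S × α → ZMod 2) : (supp (c + c')).card ≤ (supp c).card + (supp c').card := by
  refine (card_le_card ?_).trans (card_union_le _ _)
  intro p hp
  rw [mem_union, mem_supp, mem_supp]
  rw [mem_supp, Pi.add_apply] at hp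
  by_contra hcon
  push Not at hcon
  rw [hcon.1, hcon.2, add_zero] at hp
  exact hp rfl

lemma supp_add_disjoint {c c' : S × α → ZMod 2} (h : Disjoint (supp c) (supp c')) :
    (supp (c + c')).card = (supp c).card + (supp c').card := by
  rw [← card_union_of_disjoint h]
  congr 1
  ext p
  rw [mem_union, mem_supp, mem_supp, mem_supp, Pi.add_apply]
  by_cases h1 : c p = 0
  · simp [h1]
  · have h2 : c' p = 0 := by
      by_contra h2
      exact (Finset.disjoint_left.1 h) (mem_supp.2 h1) (mem_supp.2 h2)
    simp [h1, h2]

lemma supp_edge {s : S} {a b : α} (h : a ≠ b) : supp (edge s a b) = {(s, a), (s, b)} := by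
  ext p
  rw [mem_supp, mem_insert, mem_singleton]
  unfold edge
  by_cases h1 : p = (s, a)
  · have h2 : p ≠ (s, b) := by
      rw [h1]
      intro h3
      exact h (Prod.mk.inj h3).2
    simp [h1, h]
  · simp [h1]

lemma card_supp_edge {s : S} {a b : α} (h : a ≠ b) : (supp (edge s a b)).card = 2 := by
  rw [supp_edge h, card_pair]
  intro h3
  exact h (Prod.mk.inj h3).2

lemma supp_chain_le {τ : S → α → α} (hne : ∀ s a, τ s a ≠ a) (w : List S) (a : α) :
    (supp (chain τ w a)).card ≤ 2 * w.length := by
  induction w generalizing a with
  | nil =>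
    have : supp (chain τ [] a) = ∅ := by
      ext p; simp [mem_supp, chain]
    rw [this]
    simp
  | cons s w ih =>
    have h1 := supp_add_le (edge s a (τ s a)) (chain τ w (τ s a))
    rw [card_supp_edge (hne s a).symm] at h1
    have h2 := ih (τ s a)
    show (supp (edge s a (τ s a) + chain τ w (τ s a))).card ≤ _
    rw [List.length_cons]
    omega

lemma mem_supp_chain {τ : S → α → α} {w : List S} {a : α} {p : S × α}
    (h : p ∈ supp (chain τ w a)) : ∃ u v, w = u ++ p.1 :: v ∧
      (p.2 = act τ u a ∨ p.2 = τ p.1 (act τ u a)) := by
  induction w generalizing a with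
  | nil => simp [mem_supp, chain] at h
  | cons s w ih =>
    rw [mem_supp] at h
    by_cases h1 : chain τ w (τ s a) p = 0
    · have h2 : edge s a (τ s a) p ≠ 0 := by
        intro h2
        apply h
        show edge s a (τ s a) p + chain τ w (τ s a) p = 0
        rw [h1, h2, add_zero]
      have h3 : p = (s, a) ∨ p = (s, τ s a) := by
        by_contra hcon
        push Not at hcon
        apply h2
        simp [edge, hcon.1, hcon.2]
      rcases h3 with rfl | rfl
      · exact ⟨[], w, rfl, Or.inl rfl⟩
      · exact ⟨[], w, rfl, Or.inr rfl⟩
    · obtain ⟨u, v, huv, h2⟩ := ih (mem_supp.2 h1)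
      refine ⟨s :: u, v, by rw [huv]; rfl, h2⟩

/-- short reduced words cross pairwise different edges -/
lemma card_supp_chain {τ : S → α → α} (hτ : ∀ s a, τ s (τ s a) = a) (hne : ∀ s a, τ s a ≠ a)
    {g : ℕ} (hF : Free τ g) (w : List S) (hw : Red w) (hlen : w.length ≤ g) (a : α) :
    (supp (chain τ w a)).card = 2 * w.length := by
  induction w generalizing a with
  | nil =>
    have : supp (chain τ [] a) = ∅ := by
      ext p; simp [mem_supp, chain]
    rw [this]
    simp
  | cons s w ih =>
    rw [List.length_cons] at hlen
    show (supp (edge s a (τ s a) + chain τ w (τ s a))).card = _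
    rw [supp_add_disjoint, card_supp_edge (hne s a).symm, ih hw.tail (by omega) (τ s a),
      List.length_cons]
    · ring
    · rw [Finset.disjoint_left]
      intro p hp hp'
      rw [supp_edge (hne s a).symm, mem_insert, mem_singleton] at hp
      obtain ⟨u, v, huv, h⟩ := mem_supp_chain hp'
      have hps : p.1 = s := by rcases hp with rfl | rfl <;> rfl
      have hpa : p.2 = a ∨ p.2 = τ s a := by
        rcases hp with rfl | rfl
        · exact Or.inl rfl
        · exact Or.inr rfl
      rw [hps] at huv h
      have hcase : act τ u (τ s a) = a ∨ act τ u (τ s a) = τ s a := by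
        rcases h with h | h
        · rw [← h]; exact hpa
        · have : act τ u (τ s a) = τ s p.2 := by rw [h, hτ]
          rcases hpa with h1 | h1
          · right; rw [this, h1]
          · left; rw [this, h1, hτ]
      have hlenu : u.length + 1 ≤ w.length := by
        rw [huv, List.length_append, List.length_cons]
        omega
      have hredu : Red (s :: u) := by
        have : Red ((s :: u) ++ s :: v) := by
          have := hw
          rw [huv] at this
          exact this
        exact (List.isChain_append.1 this).1
      rcases hcase with h1 | h1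
      · exact hF (s :: u) hredu (by simp) (by rw [List.length_cons]; omega) a h1
      · by_cases hu : u = []
        · subst hu
          rw [huv] at hw
          exact (List.isChain_cons_cons.1 hw).1 rfl
        · exact hF u hredu.tail hu (by omega) _ h1

/-- the girth of the homology cover is at least twice that of the graph -/
theorem free_cov {τ : S → α → α} (hτ : ∀ s a, τ s (τ s a) = a) (hne : ∀ s a, τ s a ≠ a)
    {g : ℕ} (hF : Free τ g) : Free (cov τ) (2 * g) := by
  rintro w hw hw0 hlen ⟨a, c⟩ hfix
  rw [act_cov] at hfix
  have h1 : act τ w a = a := congrArg Prod.fst hfix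
  have h2 : c + chain τ w a = c := congrArg Prod.snd hfix
  have h3 : chain τ w a = 0 := by simpa using h2
  by_cases hg : w.length < g
  · exact hF w hw hw0 hg a h1
  · push Not at hg
    have hsplit : w = w.take g ++ w.drop g := (List.take_append_drop g w).symm
    have hlu : (w.take g).length = g := by rw [List.length_take]; omega
    have hlv : (w.drop g).length < g := by rw [List.length_drop]; omega
    have hru : Red (w.take g) := by
      have : Red (w.take g ++ w.drop g) := by rw [← hsplit]; exact hw
      exact (List.isChain_append.1 this).1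
    rw [hsplit, chain_append] at h3
    have h4 := feq_of_add h3
    have h5 := card_supp_chain hτ hne hF (w.take g) hru hlu.le a
    have h6 := supp_chain_le hne (w.drop g) (act τ (w.take g) a)
    rw [h4] at h5
    omega

lemma sum_edge (s : S) (a b x : α) : ∑ t, edge s a b (t, x) =
    (if x = a then 1 else 0) + (if x = b then 1 else 0) := by
  unfold edge
  rw [Finset.sum_add_distrib]
  have h : ∀ y : α, ∑ t : S, (if ((t, x) : S × α) = (s, y) then (1 : ZMod 2) else 0) =
      if x = y then 1 else 0 := by
    intro y
    by_cases hxy : x = y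
    · subst hxy
      simp
    · simp [hxy]
  rw [h, h]

/-- removing an edge from a symmetric chain -/
lemma card_supp_remove {τ : S → α → α} (hne : ∀ s a, τ s a ≠ a)
    {c : S × α → ZMod 2} (hsym : ∀ s a, c (s, τ s a) = c (s, a)) {s : S} {a : α}
    (h : c (s, a) ≠ 0) : (supp (c + edge s a (τ s a))).card + 2 = (supp c).card := by
  have h1 : supp c = supp (c + edge s a (τ s a)) ∪ supp (edge s a (τ s a)) := by
    ext p
    rw [mem_union, mem_supp, mem_supp, supp_edge (hne s a).symm, mem_insert, mem_singleton,
      Pi.add_apply]
    by_cases hp : p = (s, a) ∨ p = (s, τ s a)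
    · have : c p ≠ 0 := by
        rcases hp with rfl | rfl
        · exact h
        · rw [hsym]; exact h
      simp [hp, this]
    · have : edge s a (τ s a) p = 0 := by
        push Not at hp
        simp [edge, hp.1, hp.2]
      rw [this, add_zero]
      simp [hp]
  have h2 : Disjoint (supp (c + edge s a (τ s a))) (supp (edge s a (τ s a))) := by
    rw [Finset.disjoint_left]
    intro p hp hp'
    rw [mem_supp] at hp hp'
    rw [Pi.add_apply] at hp
    have hz : ∀ x : ZMod 2, x ≠ 0 → x = 1 := by decide
    have hcp : c p ≠ 0 := by
      have hp2 : p ∈ supp (edge s a (τ s a)) := mem_supp.2 hp'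
      rw [supp_edge (hne s a).symm, mem_insert, mem_singleton] at hp2
      rcases hp2 with rfl | rfl
      · exact h
      · rw [hsym]; exact h
    rw [hz _ hcp, hz _ hp'] at hp
    exact hp (by decide)
  conv_rhs => rw [h1, card_union_of_disjoint h2, card_supp_edge (hne s a).symm]

/-- short chains with boundary `{p, q}` are paths -/
theorem path {τ : S → α → α} (hτ : ∀ s a, τ s (τ s a) = a) (hne : ∀ s a, τ s a ≠ a)
    {g : ℕ} (hF : Free τ g) (n : ℕ) : ∀ (c : S × α → ZMod 2), (supp c).card = n →
      (∀ s a, c (s, τ s a) = c (s, a)) → ∀ p q : α,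
      (∀ x, ∑ s, c (s, x) = (if x = p then 1 else 0) + (if x = q then 1 else 0)) →
      n < 2 * g → ∃ w : List S, 2 * w.length = n ∧ act τ w p = q ∧ chain τ w p = c := by
  induction n using Nat.strong_induction_on with
  | _ n ih =>
    intro c hn hsym p q hbd hlt
    have hz : ∀ x : ZMod 2, x ≠ 0 → x = 1 := by decide
    -- removing an edge at `a`
    have key : ∀ (s : S) (a : α), c (s, a) ≠ 0 → ∀ q' : α,
        (∀ x, ∑ s', (c + edge s a (τ s a)) (s', x) =
          (if x = τ s a then 1 else 0) + (if x = q' then 1 else 0)) →
        ∃ w : List S, 2 * w.length + 2 = n ∧ act τ w (τ s a) = q' ∧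
          chain τ w (τ s a) = c + edge s a (τ s a) := by
      intro s a hsa q' hbd'
      have hcard := card_supp_remove hne hsym hsa
      have hsym' : ∀ t b, (c + edge s a (τ s a)) (t, τ t b) = (c + edge s a (τ s a)) (t, b) := by
        intro t b
        rw [Pi.add_apply, Pi.add_apply, hsym]
        congr 1
        unfold edge
        by_cases hts : t = s
        · subst hts
          have e1 : (((t, τ t b) : S × α) = (t, a)) ↔ (((t, b) : S × α) = (t, τ t a)) := by
            rw [Prod.mk.injEq, Prod.mk.injEq]
            constructor
            · rintro ⟨-, h⟩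
              exact ⟨rfl, by rw [← h, hτ]⟩
            · rintro ⟨-, h⟩
              exact ⟨rfl, by rw [h, hτ]⟩
          have e2 : (((t, τ t b) : S × α) = (t, τ t a)) ↔ (((t, b) : S × α) = (t, a)) := by
            rw [Prod.mk.injEq, Prod.mk.injEq]
            constructor
            · rintro ⟨-, h⟩
              exact ⟨rfl, by rw [← hτ t b, h, hτ]⟩
            · rintro ⟨-, h⟩
              exact ⟨rfl, by rw [h]⟩
          simp only [e1, e2]
          exact add_comm _ _
        · simp [hts]
      obtain ⟨w, hw1, hw2, hw3⟩ := ih (supp (c + edge s a (τ s a))).card (by omega)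
        (c + edge s a (τ s a)) rfl hsym' (τ s a) q' hbd' (by omega)
      exact ⟨w, by omega, hw2, hw3⟩
    by_cases hc : c = 0
    · have h1 := hbd p
      have h2 : supp c = ∅ := by
        ext x; rw [mem_supp, hc]; simp
      rw [h2] at hn
      refine ⟨[], by simpa using hn, ?_, hc.symm⟩
      rw [hc] at h1
      by_contra hpq
      have hpq' : ¬ p = q := hpq
      simp [hpq'] at h1
    · by_cases hpq : p = q
      · exfalso
        obtain ⟨⟨s, a⟩, hsa⟩ := Function.ne_iff.1 hc
        have hsa' : c (s, a) ≠ 0 := hsa
        obtain ⟨w, hw1, hw2, hw3⟩ := key s a hsa' a (by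
          intro x
          have : ∑ s', (c + edge s a (τ s a)) (s', x) =
              ∑ s', c (s', x) + ∑ s', edge s a (τ s a) (s', x) := by
            rw [← Finset.sum_add_distrib]; rfl
          rw [this, hbd, sum_edge, hpq, CharTwo.add_self_eq_zero, zero_add, add_comm])
        obtain ⟨w', hr, hl, hw'⟩ := reduce hτ (s :: w)
        have h1 : act τ w' a = a := by
          rw [(hw' a).1]
          exact hw2
        have h2 : chain τ w' a = c := by
          rw [(hw' a).2]
          show edge s a (τ s a) + chain τ w (τ s a) = c
          rw [hw3, add_comm, add_assoc, fadd_self, add_zero]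
        by_cases hw0 : w' = []
        · rw [hw0] at h2
          exact hc h2.symm
        · refine hF w' hr hw0 ?_ a h1
          rw [List.length_cons] at hl
          omega
      · have h1 := hbd p
        rw [if_pos rfl, if_neg hpq, add_zero] at h1
        have h2 : ∃ s, c (s, p) ≠ 0 := by
          by_contra hcon
          push Not at hcon
          rw [Finset.sum_eq_zero (fun s _ => hcon s)] at h1
          exact absurd h1 (by decide)
        obtain ⟨s, hs⟩ := h2
        obtain ⟨w, hw1, hw2, hw3⟩ := key s p hs q (by
          intro x
          have : ∑ s', (c + edge s p (τ s p)) (s', x) =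
              ∑ s', c (s', x) + ∑ s', edge s p (τ s p) (s', x) := by
            rw [← Finset.sum_add_distrib]; rfl
          rw [this, hbd, sum_edge]
          have h3 : ∀ u v w : ZMod 2, u + v + (u + w) = w + v := by decide
          exact h3 _ _ _)
        refine ⟨s :: w, ?_, hw2, ?_⟩
        · rw [List.length_cons]; omega
        · show edge s p (τ s p) + chain τ w (τ s p) = c
          rw [hw3, add_comm, add_assoc, fadd_self, add_zero]

end generic

end Pool.Agent.H73.HypE2
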