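import Mathlib

/-!
# `E₂` is not Borel reducible to an equivalence relation with countable classes

A Baire category proof.
-/

open Set Filter Topology

namespace Pool.Agent.H73.HypE2

/-- pointwise exclusive or -/
def sh (t z : ℕ → Bool) : ℕ → Bool := fun i => xor (t i) (z i)

lemma sh_comm (t z : ℕ → Bool) : sh t z = sh z t := by
  funext i; exact Bool.xor_comm _ _

lemma sh_sh (t z : ℕ → Bool) : sh t (sh t z) = z := by
  funext i
  simp [sh]

lemma continuous_sh (t : ℕ → Bool) : Continuous (sh t) := by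
  refine continuous_pi fun i => ?_
  exact (continuous_of_discreteTopology (f := fun b : Bool => xor (t i) b)).comp
    (continuous_apply i)

/-- exclusive or with a fixed sequence is a homeomorphism -/
def shH (t : ℕ → Bool) : (ℕ → Bool) ≃ₜ (ℕ → Bool) where
  toFun := sh t
  invFun := sh t
  left_inv := sh_sh t
  right_inv := sh_sh t
  continuous_toFun := continuous_sh t
  continuous_invFun := continuous_sh t

lemma residual_sh (t : ℕ → Bool) {s : Set (ℕ → Bool)} (h : s ∈ residual (ℕ → Bool)) :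
    sh t ⁻¹' s ∈ residual (ℕ → Bool) :=
  tendsto_residual_of_isOpenMap (shH t).continuous (shH t).isOpenMap h

/-- the sequence with a single one -/
def sing (n : ℕ) : ℕ → Bool := fun i => decide (i = n)

/-- flipping one coordinate -/
def fl (n : ℕ) (z : ℕ → Bool) : ℕ → Bool := sh (sing n) z

lemma exists_contOn {Y : Type*} [TopologicalSpace Y] [SecondCountableTopology Y]
    [MeasurableSpace Y] [BorelSpace Y] {g : (ℕ → Bool) → Y} (hg : Measurable g) :
    ∃ G ∈ residual (ℕ → Bool), ContinuousOn g G := by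
  have hB := TopologicalSpace.countable_countableBasis Y
  have h1 : ∀ u ∈ TopologicalSpace.countableBasis Y,
      ∃ O : Set (ℕ → Bool), IsOpen O ∧ g ⁻¹' u =ᵇ O := by
    intro u hu
    exact (hg (TopologicalSpace.isOpen_of_mem_countableBasis hu).measurableSet).residualEq_isOpen
  choose! O hO1 hO2 using h1
  refine ⟨{z | ∀ u ∈ TopologicalSpace.countableBasis Y, z ∈ g ⁻¹' u ↔ z ∈ O u}, ?_, ?_⟩
  · have : ∀ᶠ z in residual (ℕ → Bool), ∀ u ∈ TopologicalSpace.countableBasis Y,
        (z ∈ g ⁻¹' u ↔ z ∈ O u) := by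
      rw [eventually_countable_ball hB]
      intro u hu
      exact eventuallyEq_set.1 (hO2 u hu)
    exact this
  · intro z hz
    rw [ContinuousWithinAt, (TopologicalSpace.isBasis_countableBasis Y).nhds_hasBasis.tendsto_right_iff]
    rintro u ⟨hu, hzu⟩
    have h2 : z ∈ O u := (hz u hu).1 hzu
    have h3 : O u ∈ 𝓝[{z | ∀ u ∈ TopologicalSpace.countableBasis Y, z ∈ g ⁻¹' u ↔ z ∈ O u}] z :=
      mem_nhdsWithin_of_mem_nhds ((hO1 u hu).mem_nhds h2)
    filter_upwards [h3, self_mem_nhdsWithin] with z' hz' hz'G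
    exact (hz'G u hu).2 hz'

lemma exists_cyl {U : Set (ℕ → Bool)} (hU : IsOpen U) {z : ℕ → Bool} (hz : z ∈ U) :
    ∃ L : ℕ, {z' : ℕ → Bool | ∀ i < L, z' i = z i} ⊆ U := by
  obtain ⟨I, u, hu, hsub⟩ := isOpen_pi_iff.1 hU z hz
  refine ⟨I.sup id + 1, fun z' hz' => hsub ?_⟩
  intro i hi
  have : i < I.sup id + 1 := Nat.lt_succ_of_le (Finset.le_sup (f := id) hi)
  rw [hz' i this]
  exact (hu i hi).2

lemma isOpen_cyl (z : ℕ → Bool) (L : ℕ) : IsOpen {z' : ℕ → Bool | ∀ i < L, z' i = z i} := by
  have : {z' : ℕ → Bool | ∀ i < L, z' i = z i} = ⋂ i ∈ Finset.range L, {z' | z' i = z i} := by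
    ext z'; simp
  rw [this]
  refine isOpen_biInter_finset fun i _ => ?_
  have h : IsOpen ((fun z' : ℕ → Bool => z' i) ⁻¹' ({z i} : Set Bool)) :=
    (isOpen_discrete _).preimage (continuous_apply i)
  exact h

/-- the summability defining `E₂` -/
def E2 (a b : ℕ → Bool) : Prop :=
  Summable (fun n : ℕ => if a n = b n then (0 : ℝ) else (1 : ℝ) / ((n : ℝ) + 1))

lemma not_E2_of_differ {a b : ℕ → Bool} {L : ℕ} (h : ∀ n, L ≤ n → a n ≠ b n) : ¬ E2 a b := by
  intro hs
  have h1 : Summable (fun n : ℕ => if a (n + L) = b (n + L) then (0 : ℝ) else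
      (1 : ℝ) / (((n + L : ℕ) : ℝ) + 1)) := (summable_nat_add_iff L).2 hs
  have h2 : Summable (fun n : ℕ => (1 : ℝ) / ((n + (L + 1) : ℕ) : ℝ)) := by
    refine h1.congr fun n => ?_
    rw [if_neg (h (n + L) (Nat.le_add_left _ _))]
    push_cast
    ring
  have h3 : Summable (fun n : ℕ => (1 : ℝ) / (n : ℝ)) :=
    (summable_nat_add_iff (f := fun n : ℕ => (1 : ℝ) / (n : ℝ)) (L + 1)).1 h2
  exact Real.not_summable_one_div_natCast h3

variable {Y : Type*} [TopologicalSpace Y] [T2Space Y] [SecondCountableTopology Y]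
  [MeasurableSpace Y] [BorelSpace Y]

/-- the points where a flip changes the value -/
def chg (g : (ℕ → Bool) → Y) (n : ℕ) : Set (ℕ → Bool) := {z | g z ≠ g (fl n z)}

lemma fl_apply_of_ne {n i : ℕ} (h : i ≠ n) (z : ℕ → Bool) : fl n z i = z i := by
  simp [fl, sh, sing, h]

lemma fl_apply_self (n : ℕ) (z : ℕ → Bool) : fl n z n = !z n := by
  simp [fl, sh, sing]

/-- the case in which some cylinder has no changes -/
lemma case_const {g : (ℕ → Bool) → Y} {G : Set (ℕ → Bool)} (hG : G ∈ residual (ℕ → Bool))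
    (hgG : ContinuousOn g G) {U : Set (ℕ → Bool)} (hU : IsOpen U) (hUne : U.Nonempty) {M : ℕ}
    (hM : ∀ n, M ≤ n → IsMeagre (chg g n ∩ U)) : ∃ a b : ℕ → Bool, g a = g b ∧ ¬ E2 a b := by
  obtain ⟨z0, hz0⟩ := hUne
  obtain ⟨L0, hL0⟩ := exists_cyl hU hz0
  set L := max M L0 with hL
  set W : Set (ℕ → Bool) := {z' : ℕ → Bool | ∀ i < L, z' i = z0 i} with hW
  have hWU : W ⊆ U := fun z hz => hL0 fun i hi => hz i (lt_of_lt_of_le hi (le_max_right _ _))
  set R0 : Set (ℕ → Bool) := {z | z ∈ W → (z ∈ G ∧ ∀ n, M ≤ n → z ∉ chg g n)} with hR0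
  have hR0res : R0 ∈ residual (ℕ → Bool) := by
    have h1 : ∀ᶠ z in residual (ℕ → Bool), ∀ n, M ≤ n → z ∉ chg g n ∩ U := by
      rw [eventually_countable_forall]
      intro n
      by_cases h : M ≤ n
      · have : ∀ᶠ z in residual (ℕ → Bool), z ∉ chg g n ∩ U := hM n h
        filter_upwards [this] with z hz _ using hz
      · exact Eventually.of_forall fun z h' => absurd h' h
    filter_upwards [h1, hG] with z hz hzG
    intro hzW
    exact ⟨hzG, fun n hn hc => hz n hn ⟨hc, hWU hzW⟩⟩
  -- the shifts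
  set tk : ℕ → ℕ → Bool := fun k i => decide (L ≤ i ∧ i < k) with htk
  set tt : ℕ → Bool := fun i => decide (L ≤ i) with htt
  have hres : ∀ᶠ z in residual (ℕ → Bool), (∀ k, sh (tk k) z ∈ R0) ∧ sh tt z ∈ R0 := by
    refine Eventually.and ?_ (residual_sh tt hR0res)
    rw [eventually_countable_forall]
    exact fun k => residual_sh (tk k) hR0res
  obtain ⟨z, hzW, hz⟩ := (dense_of_mem_residual hres).inter_open_nonempty W
    (isOpen_cyl z0 L) ⟨z0, fun i _ => rfl⟩
  obtain ⟨hz1, hz2⟩ := hz
  have hshW : ∀ k, sh (tk k) z ∈ W := by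
    intro k i hi
    have : ¬ (L ≤ i ∧ i < k) := by omega
    simp only [sh, htk, this, decide_false, Bool.false_xor]
    exact hzW i hi
  have hshW' : sh tt z ∈ W := by
    intro i hi
    have : ¬ (L ≤ i) := by omega
    simp only [sh, htt, this, decide_false, Bool.false_xor]
    exact hzW i hi
  have hconst : ∀ k, L ≤ k → g (sh (tk k) z) = g z := by
    intro k hk
    induction k, hk using Nat.le_induction with
    | base =>
      congr 1
      funext i
      have : ¬ (L ≤ i ∧ i < L) := by omega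
      simp only [sh, htk, this, decide_false, Bool.false_xor]
    | succ k hk ih =>
      have h1 := ((hz1 k) (hshW k)).2 k (le_trans (le_max_left _ _) hk)
      simp only [chg, mem_ofPred_eq, not_not] at h1
      rw [← ih, h1]
      congr 1
      funext i
      by_cases hik : i = k
      · subst hik
        rw [fl_apply_self]
        simp [sh, htk, hk]
      · rw [fl_apply_of_ne hik]
        have : (L ≤ i ∧ i < k + 1) ↔ (L ≤ i ∧ i < k) := by omega
        simp only [sh, htk, this]
  have hlim : Tendsto (fun k => sh (tk k) z) atTop (𝓝 (sh tt z)) := by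
    rw [tendsto_pi_nhds]
    intro i
    refine tendsto_const_nhds.congr' ?_
    filter_upwards [eventually_gt_atTop i] with k hk
    have : (L ≤ i ∧ i < k) ↔ L ≤ i := by omega
    simp only [sh, htk, htt, this]
  have hlim2 : Tendsto (fun k => g (sh (tk k) z)) atTop (𝓝 (g (sh tt z))) := by
    have h1 := hgG (sh tt z) (hz2 hshW').1
    refine h1.tendsto.comp (tendsto_nhdsWithin_iff.2 ⟨hlim, ?_⟩)
    exact Eventually.of_forall fun k => ((hz1 k) (hshW k)).1
  have hlim3 : Tendsto (fun k => g (sh (tk k) z)) atTop (𝓝 (g z)) := by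
    refine tendsto_const_nhds.congr' ?_
    filter_upwards [eventually_ge_atTop L] with k hk
    exact (hconst k hk).symm
  refine ⟨z, sh tt z, tendsto_nhds_unique hlim3 hlim2, not_E2_of_differ (L := L) ?_⟩
  intro n hn
  simp [sh, htt, hn]

open Classical in
/-- the sequence supported on the coordinates `nn j` with values `t j` -/
noncomputable def spr (nn : ℕ → ℕ) (t : ℕ → Bool) : ℕ → Bool := fun i => decide (∃ j, nn j = i ∧ t j = true)

lemma spr_apply {nn : ℕ → ℕ} (hnn : Function.Injective nn) (t : ℕ → Bool) (j : ℕ) :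
    spr nn t (nn j) = t j := by
  unfold spr
  by_cases h : t j = true
  · rw [h]
    simp only [decide_eq_true_eq]
    exact ⟨j, rfl, h⟩
  · have h' : t j = false := by simpa using h
    rw [h']
    simp only [decide_eq_false_iff_not]
    rintro ⟨j', hj', ht⟩
    rw [hnn hj'] at ht
    exact h ht

lemma spr_apply_of_not {nn : ℕ → ℕ} (t : ℕ → Bool) {i : ℕ} (h : ∀ j, nn j ≠ i) :
    spr nn t i = false := by
  unfold spr
  simp only [decide_eq_false_iff_not]
  rintro ⟨j, hj, -⟩
  exact h j hj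

lemma continuous_spr {nn : ℕ → ℕ} (hnn : Function.Injective nn) (x : ℕ → Bool) :
    Continuous fun t => sh x (spr nn t) := by
  refine (continuous_sh x).comp (continuous_pi fun i => ?_)
  by_cases h : ∃ j, nn j = i
  · obtain ⟨j, rfl⟩ := h
    refine (continuous_apply j).congr fun t => ?_
    exact (spr_apply hnn t j).symm
  · push Not at h
    refine (continuous_const (y := false)).congr fun t => ?_
    exact (spr_apply_of_not t h).symm

lemma spr_fl {nn : ℕ → ℕ} (hnn : Function.Injective nn) (t : ℕ → Bool) (j : ℕ) :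
    spr nn (fl j t) = fl (nn j) (spr nn t) := by
  funext i
  by_cases h : ∃ j', nn j' = i
  · obtain ⟨j', rfl⟩ := h
    rw [spr_apply hnn]
    by_cases hj : j' = j
    · subst hj
      rw [fl_apply_self, fl_apply_self, spr_apply hnn]
    · rw [fl_apply_of_ne hj, fl_apply_of_ne (fun h => hj (hnn h)), spr_apply hnn]
  · push Not at h
    rw [spr_apply_of_not _ h, fl_apply_of_ne (fun hc => h j hc.symm), spr_apply_of_not _ h]

lemma sh_fl (n : ℕ) (x z : ℕ → Bool) : sh x (fl n z) = fl n (sh x z) := by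
  funext i
  simp only [sh, fl]
  cases x i <;> cases z i <;> cases sing n i <;> rfl

lemma E2_spr {nn : ℕ → ℕ} (hnn : Function.Injective nn) (h2 : ∀ j, 2 ^ j ≤ nn j) (x t : ℕ → Bool) :
    E2 x (sh x (spr nn t)) := by
  unfold E2
  have h3 : Summable ((fun n : ℕ => if x n = sh x (spr nn t) n then (0 : ℝ) else
      (1 : ℝ) / ((n : ℝ) + 1)) ∘ nn) := by
    refine Summable.of_nonneg_of_le (fun j => ?_) (fun j => ?_)
      (summable_geometric_two)
    · simp only [Function.comp]
      split_ifs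
      · exact le_rfl
      · positivity
    · simp only [Function.comp]
      have h4 : (2 : ℝ) ^ j ≤ nn j := by exact_mod_cast h2 j
      split_ifs
      · positivity
      · rw [one_div_pow]
        apply one_div_le_one_div_of_le (by positivity)
        linarith
  refine (hnn.summable_iff ?_).1 h3
  intro i hi
  have : spr nn t i = false := spr_apply_of_not t fun j hj => hi ⟨j, hj⟩
  simp [sh, this]

lemma case_split {g : (ℕ → Bool) → Y} (hg : Measurable g) {G : Set (ℕ → Bool)}
    (hG : G ∈ residual (ℕ → Bool)) (hgG : ContinuousOn g G)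
    (H : ∀ U : Set (ℕ → Bool), IsOpen U → U.Nonempty → ∀ M : ℕ, ∃ n, M ≤ n ∧
      ¬ IsMeagre (chg g n ∩ U)) {C : (ℕ → Bool) → Set Y} (hC : ∀ x, (C x).Countable)
    (hgC : ∀ x z, E2 x z → g z ∈ C x) : False := by
  -- a sequence of basic open sets
  obtain ⟨b, hb⟩ := (TopologicalSpace.countable_countableBasis (ℕ → Bool)).exists_eq_range
    (by
      by_contra hne
      rw [not_nonempty_iff_eq_empty] at hne
      have h1 := (TopologicalSpace.isBasis_countableBasis (ℕ → Bool)).sUnion_eq
      rw [hne, sUnion_empty] at h1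
      exact (empty_ne_univ h1))
  have hbo : ∀ i, IsOpen (b i) := fun i =>
    TopologicalSpace.isOpen_of_mem_countableBasis (hb ▸ mem_range_self i)
  have hbn : ∀ i, (b i).Nonempty := fun i =>
    TopologicalSpace.nonempty_of_mem_countableBasis (hb ▸ mem_range_self i)
  choose N hN1 hN2 using fun (i M : ℕ) => H (b i) (hbo i) (hbn i) M
  set idx : ℕ → ℕ := fun j => (Nat.unpair j).1 with hidx
  set nn : ℕ → ℕ := fun j => Nat.rec (N (idx 0) 1)
    (fun j r => N (idx (j + 1)) (r + 1 + 2 ^ (j + 1))) j with hnn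
  have hnn0 : nn 0 = N (idx 0) 1 := rfl
  have hnns : ∀ j, nn (j + 1) = N (idx (j + 1)) (nn j + 1 + 2 ^ (j + 1)) := fun j => rfl
  have hmono : StrictMono nn := by
    refine strictMono_nat_of_lt_succ fun j => ?_
    rw [hnns]
    have h1 := hN1 (idx (j + 1)) (nn j + 1 + 2 ^ (j + 1))
    exact lt_of_lt_of_le (by linarith [Nat.zero_le (2 ^ (j + 1))]) h1
  have hinj := hmono.injective
  have hpow : ∀ j, 2 ^ j ≤ nn j := by
    intro j
    cases j with
    | zero => rw [hnn0]; simpa using hN1 (idx 0) 1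
    | succ j =>
      rw [hnns]
      exact le_trans (Nat.le_add_left _ _) (hN1 (idx (j + 1)) (nn j + 1 + 2 ^ (j + 1)))
  have hnm : ∀ j, ¬ IsMeagre (chg g (nn j) ∩ b (idx j)) := by
    intro j
    cases j with
    | zero => exact hN2 _ _
    | succ j => exact hN2 _ _
  have hmeas : ∀ n, MeasurableSet (chg g n) := by
    intro n
    have : chg g n = {z | g z = g (fl n z)}ᶜ := rfl
    rw [this]
    exact (measurableSet_eq_fun hg (hg.comp (continuous_sh _).measurable)).compl
  set P : ℕ → Set (ℕ → Bool) := fun J => {z | ∃ j, J ≤ j ∧ z ∈ chg g (nn j)} with hP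
  have hPres : ∀ J, P J ∈ residual (ℕ → Bool) := by
    intro J
    have hPm : MeasurableSet (P J) := by
      have : P J = ⋃ j, ⋃ (_ : J ≤ j), chg g (nn j) := by
        ext z; simp [hP]
      rw [this]
      exact MeasurableSet.iUnion fun j => MeasurableSet.iUnion fun _ => hmeas _
    obtain ⟨O, hO, hPO⟩ := hPm.residualEq_isOpen
    have hdense : Dense O := by
      by_contra hnd
      rw [dense_iff_inter_open] at hnd
      push Not at hnd
      obtain ⟨U, hU, ⟨z0, hz0⟩, hUO⟩ := hnd
      obtain ⟨u, hu, hz0u, huU⟩ :=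
        (TopologicalSpace.isBasis_countableBasis (ℕ → Bool)).exists_subset_of_mem_open hz0 hU
      rw [hb] at hu
      obtain ⟨i, rfl⟩ := hu
      set j := Nat.pair i J with hj
      have hJj : J ≤ j := Nat.right_le_pair i J
      have hij : idx j = i := by rw [hidx, hj]; simp
      apply hnm j
      rw [hij]
      have h1 : ∀ᶠ z in residual (ℕ → Bool), (z ∈ P J ↔ z ∈ O) := eventuallyEq_set.1 hPO
      have : ∀ᶠ z in residual (ℕ → Bool), z ∉ chg g (nn j) ∩ b i := by
        filter_upwards [h1] with z hz hzc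
        have h2 : z ∈ O := hz.1 ⟨j, hJj, hzc.1⟩
        have h3 : z ∈ U ∩ O := ⟨huU hzc.2, h2⟩
        rw [hUO] at h3
        exact h3
      exact this
    have h1 : ∀ᶠ z in residual (ℕ → Bool), (z ∈ P J ↔ z ∈ O) := eventuallyEq_set.1 hPO
    filter_upwards [h1, residual_of_dense_open hO hdense] with z hz hzO using hz.2 hzO
  have hall : (G ∩ ⋂ J, P J) ∈ residual (ℕ → Bool) :=
    inter_mem hG ((countable_iInter_mem).2 hPres)
  obtain ⟨S, hSo, hSd, hSc, hSsub⟩ := mem_residual_iff.1 hall
  -- the generic point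
  have hx : ∀ᶠ x in residual (ℕ → Bool), ∀ i, ∀ D ∈ S,
      sh (spr nn (TopologicalSpace.denseSeq (ℕ → Bool) i)) x ∈ D := by
    rw [eventually_countable_forall]
    intro i
    rw [eventually_countable_ball hSc]
    intro D hD
    exact residual_sh _ (residual_of_dense_open (hSo D hD) (hSd D hD))
  obtain ⟨x, hx⟩ := (dense_of_mem_residual hx).nonempty
  set Φ : (ℕ → Bool) → (ℕ → Bool) := fun t => sh x (spr nn t) with hΦ
  have hΦc : Continuous Φ := continuous_spr hinj x
  set T : Set (ℕ → Bool) := Φ ⁻¹' (⋂₀ S) with hT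
  have hTres : T ∈ residual (ℕ → Bool) := by
    have : T = ⋂ D ∈ S, Φ ⁻¹' D := by
      rw [hT, sInter_eq_biInter, preimage_iInter₂]
    rw [this, countable_bInter_mem hSc]
    intro D hD
    refine residual_of_dense_open ((hSo D hD).preimage hΦc) ?_
    refine (TopologicalSpace.denseRange_denseSeq (ℕ → Bool)).mono ?_
    rintro _ ⟨i, rfl⟩
    show sh x (spr nn _) ∈ D
    rw [sh_comm]
    exact hx i D hD
  have hTP : ∀ t ∈ T, Φ t ∈ G ∧ ∀ J, Φ t ∈ P J := by
    intro t ht
    have := hSsub ht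
    exact ⟨this.1, mem_iInter.1 this.2⟩
  have hval : ∀ t, g (Φ t) ∈ C x := fun t => hgC x _ (E2_spr hinj hpow x t)
  -- a non-meagre fibre
  have hfib : ∃ y ∈ C x, ¬ IsMeagre {t | t ∈ T ∧ g (Φ t) = y} := by
    by_contra hcon
    push Not at hcon
    have h1 : ∀ᶠ t in residual (ℕ → Bool), ∀ y ∈ C x, t ∉ {t | t ∈ T ∧ g (Φ t) = y} := by
      rw [eventually_countable_ball (hC x)]
      intro y hy
      exact hcon y hy
    obtain ⟨t, ht1, ht2⟩ := (dense_of_mem_residual (h1.and hTres)).nonempty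
    exact ht1 _ (hval t) ⟨ht2, rfl⟩
  obtain ⟨y, -, hy⟩ := hfib
  set A : Set (ℕ → Bool) := {t | t ∈ T ∧ g (Φ t) = y} with hA
  have hAint : (interior (closure A)).Nonempty := by
    by_contra hne
    rw [not_nonempty_iff_eq_empty] at hne
    exact hy (IsNowhereDense.isMeagre hne)
  obtain ⟨t1, ht1⟩ := hAint
  obtain ⟨J, hJ⟩ := exists_cyl isOpen_interior ht1
  set W : Set (ℕ → Bool) := {z' : ℕ → Bool | ∀ i < J, z' i = t1 i} with hW
  have hFc : ContinuousOn (fun t => g (Φ t)) T :=
    hgG.comp hΦc.continuousOn fun t ht => (hTP t ht).1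
  have hconst : ∀ t ∈ T ∩ W, g (Φ t) = y := by
    rintro t ⟨htT, htW⟩
    have h1 : t ∈ closure A := interior_subset (hJ htW)
    have h2 : ContinuousWithinAt (fun t => g (Φ t)) A t := (hFc t htT).mono fun t ht => ht.1
    have h3 := h2.mem_closure_image h1
    have h4 : (fun t => g (Φ t)) '' A ⊆ {y} := by
      rintro _ ⟨t, ht, rfl⟩
      exact ht.2
    have h5 := closure_mono h4 h3
    rw [closure_singleton] at h5
    exact h5
  have hres2 : ∀ᶠ t in residual (ℕ → Bool), t ∈ T ∧ ∀ j, fl j t ∈ T := by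
    refine Eventually.and hTres ?_
    rw [eventually_countable_forall]
    exact fun j => residual_sh _ hTres
  obtain ⟨t, htW, htT, htj⟩ := (dense_of_mem_residual hres2).inter_open_nonempty W
    (isOpen_cyl t1 J) ⟨t1, fun i _ => rfl⟩
  obtain ⟨j, hj, hchg⟩ := (hTP t htT).2 J
  apply hchg
  have h1 : fl (nn j) (Φ t) = Φ (fl j t) := by
    simp only [hΦ]
    rw [spr_fl hinj, sh_fl]
  rw [h1, hconst t ⟨htT, htW⟩, hconst (fl j t) ⟨htj j, ?_⟩]
  intro i hi
  rw [fl_apply_of_ne (by omega)]
  exact htW i hi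

/-- `E₂` is not Borel reducible to an equivalence relation with countable classes. -/
theorem not_reducible (E : Y → Y → Prop) (hE : Equivalence E) (hc : ∀ y, {z | E y z}.Countable)
    {g : (ℕ → Bool) → Y} (hg : Measurable g) (h : ∀ a b, E2 a b ↔ E (g a) (g b)) : False := by
  obtain ⟨G, hG, hgG⟩ := exists_contOn hg
  by_cases H : ∀ U : Set (ℕ → Bool), IsOpen U → U.Nonempty → ∀ M : ℕ, ∃ n, M ≤ n ∧
      ¬ IsMeagre (chg g n ∩ U)
  · exact case_split hg hG hgG H (C := fun x => {z | E (g x) z}) (fun x => hc _)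
      fun x z hxz => (h x z).1 hxz
  · push Not at H
    obtain ⟨U, hU, hUne, M, hM⟩ := H
    obtain ⟨a, b, hab, hne⟩ := case_const hG hgG hU hUne hM
    apply hne
    rw [h, hab]
    exact hE.refl _

end Pool.Agent.H73.HypE2
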