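import Pool.Agent.H73.HypE2.Space

/-!
# Haar measure on the limit space is invariant
-/

open Finset MeasureTheory

namespace Pool.Agent.H73.HypE2

lemma trunc_add_iff (k : ℕ) (x y a : X) : trunc k (x + a) = trunc k (y + a) ↔
    trunc k x = trunc k y := by
  induction k with
  | zero =>
    constructor
    · intro h
      funext s
      have h1 : x (Sum.inl s) + a (Sum.inl s) = y (Sum.inl s) + a (Sum.inl s) := congrFun h s
      exact add_right_cancel h1
    · intro h
      funext s
      have h1 : x (Sum.inl s) = y (Sum.inl s) := congrFun h s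
      show x (Sum.inl s) + a (Sum.inl s) = y (Sum.inl s) + a (Sum.inl s)
      rw [h1]
  | succ k ih =>
    rw [trunc_succ_iff, trunc_succ_iff, ih]
    refine and_congr Iff.rfl ?_
    have h : ∀ z : X, lev k (z + a) = lev k z + lev k a := fun _ => rfl
    rw [h, h]
    exact add_left_inj _

/-- the cylinders -/
def cyls : Set (Set X) := {s | ∃ k, ∃ v : V k, s = {x | trunc k x = v}}

lemma isPiSystem_cyls : IsPiSystem cyls := by
  have key : ∀ k l (v : V k) (w : V l), k ≤ l → ({x : X | trunc k x = v} ∩ {x | trunc l x = w}).Nonempty →
      {x : X | trunc k x = v} ∩ {x | trunc l x = w} = {x | trunc l x = w} := by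
    rintro k l v w hkl ⟨z, hz1, hz2⟩
    refine Set.inter_eq_right.2 fun x hx => ?_
    have h1 : trunc l x = trunc l z := Eq.trans hx (Eq.symm hz2)
    exact (trunc_mono hkl h1).trans hz1
  rintro _ ⟨k, v, rfl⟩ _ ⟨l, w, rfl⟩ hne
  rcases le_total k l with hkl | hkl
  · exact ⟨l, w, key k l v w hkl hne⟩
  · refine ⟨k, v, ?_⟩
    rw [Set.inter_comm] at hne ⊢
    exact key l k w v hkl hne

lemma generateFrom_cyls : (MeasurableSpace.pi : MeasurableSpace X) = MeasurableSpace.generateFrom cyls := by
  refine le_antisymm ?_ ?_
  · have hcyl : ∀ k (v : V k), MeasurableSet[MeasurableSpace.generateFrom cyls] {x : X | trunc k x = v} :=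
      fun k v => MeasurableSpace.measurableSet_generateFrom ⟨k, v, rfl⟩
    have htr : ∀ k, @Measurable _ _ (MeasurableSpace.generateFrom cyls) _ (trunc k) := fun k =>
      @measurable_to_countable' _ _ _ _ (MeasurableSpace.generateFrom cyls) _ fun v => hcyl k v
    refine iSup_le fun i => ?_
    rw [← measurable_iff_comap_le]
    rcases i with s | ⟨k, p⟩
    · exact (measurable_from_top (f := fun v : V 0 => (v : S → ZMod 2) s)).comp (htr 0)
    · exact (measurable_from_top (f := fun v : V (k + 1) =>
        (v : V k × (S × V k → ZMod 2)).2 p)).comp (htr (k + 1))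
  · refine MeasurableSpace.generateFrom_le ?_
    rintro _ ⟨k, v, rfl⟩
    exact measurableSet_cyl k v

theorem exists_measure : ∃ μ : Measure X, IsProbabilityMeasure μ ∧
    ∀ s, MeasurePreserving (sX s) μ μ := by
  set μ : Measure X := Measure.addHaarMeasure (⊤ : TopologicalSpace.PositiveCompacts X) with hμ
  have hprob : IsProbabilityMeasure μ := by
    constructor
    have h := Measure.addHaarMeasure_self (K₀ := (⊤ : TopologicalSpace.PositiveCompacts X))
    simpa using h
  have hinv : ∀ (a : X) (B : Set X), μ ((fun x => x + a) ⁻¹' B) = μ B := fun a B =>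
    measure_preimage_add_right μ a B
  refine ⟨μ, hprob, fun s => ⟨measurable_sX s, ?_⟩⟩
  have hprob' : IsProbabilityMeasure (μ.map (sX s)) :=
    Measure.isProbabilityMeasure_map (measurable_sX s).aemeasurable
  refine ext_of_generate_finite cyls generateFrom_cyls isPiSystem_cyls ?_ ?_
  · rintro _ ⟨k, v, rfl⟩
    rw [Measure.map_apply (measurable_sX s) (measurableSet_cyl k v)]
    have h1 : sX s ⁻¹' {x | trunc k x = v} = {x | trunc k x = sg k s v} := by
      ext x
      show trunc k (sX s x) = v ↔ trunc k x = sg k s v
      rw [trunc_sX]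
      constructor
      · rintro rfl
        rw [sg_sg]
      · intro h
        rw [h, sg_sg]
    by_cases hne : ∃ y, trunc k y = v
    · obtain ⟨y, hy⟩ := hne
      have h2 : {x | trunc k x = sg k s v} = (fun x => x + (y + sX s y)) ⁻¹' {x | trunc k x = v} := by
        ext x
        show trunc k x = sg k s v ↔ trunc k (x + (y + sX s y)) = v
        have h3 : y = sX s y + (y + sX s y) := by
          funext i
          show y i = sX s y i + (y i + sX s y i)
          have : ∀ a b : ZMod 2, a = b + (a + b) := by decide
          exact this _ _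
        rw [← hy, ← trunc_sX]
        have h4 := trunc_add_iff k x (sX s y) (y + sX s y)
        rw [← h3] at h4
        exact h4.symm
      rw [h1, h2, hinv]
    · have h2 : {x : X | trunc k x = v} = ∅ := by
        ext x
        simp only [Set.mem_empty_iff_false, iff_false]
        exact fun h => hne ⟨x, h⟩
      have h3 : {x : X | trunc k x = sg k s v} = ∅ := by
        ext x
        simp only [Set.mem_empty_iff_false, iff_false]
        intro h
        have h : trunc k x = sg k s v := h
        exact hne ⟨sX s x, by rw [trunc_sX, h, sg_sg]⟩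
      rw [h1, h2, h3]
  · rw [measure_univ, measure_univ]

end Pool.Agent.H73.HypE2
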