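import Pool.Agent.H73.HypE2.Space

/-!
# Invariants
-/

open Finset MeasureTheory

namespace Pool.Agent.H73.HypE2

/-- boundary invariant -/
noncomputable def thI (k : ℕ) (v : V k) (x : X) : ZMod 2 :=
  ∑ s, lev k x (s, v) + if v = trunc k x then 1 else 0

/-- symmetry invariant -/
noncomputable def etI (k : ℕ) (p : S × V k) (x : X) : ZMod 2 :=
  lev k x p + lev k x (p.1, sg k p.1 p.2)

lemma edge_symm {α : Type*} [DecidableEq α] {τ : S → α → α} (hτ : ∀ s a, τ s (τ s a) = a)
    (s : S) (a : α) (t : S) (b : α) : edge s a (τ s a) (t, τ t b) = edge s a (τ s a) (t, b) := by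
  unfold edge
  by_cases hts : t = s
  · subst hts
    have e1 : (((t, τ t b) : S × α) = (t, a)) ↔ (((t, b) : S × α) = (t, τ t a)) := by
      rw [Prod.mk.injEq, Prod.mk.injEq]
      constructor
      · rintro ⟨-, h⟩
        exact ⟨rfl, by rw [← h, hτ]⟩
      · rintro ⟨-, h⟩
        exact ⟨rfl, by rw [h, hτ]⟩
    have e2 : (((t, τ t b) : S × α) = (t, τ t a)) ↔ (((t, b) : S × α) = (t, a)) := by
      rw [Prod.mk.injEq, Prod.mk.injEq]
      constructor
      · rintro ⟨-, h⟩
        exact ⟨rfl, by rw [← hτ t b, h, hτ]⟩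
      · rintro ⟨-, h⟩
        exact ⟨rfl, by rw [h]⟩
    simp only [e1, e2]
    exact add_comm _ _
  · simp [hts]

lemma thI_sX (k : ℕ) (v : V k) (s : S) (x : X) : thI k v (sX s x) = thI k v x := by
  unfold thI
  have h1 : ∑ t, lev k (sX s x) (t, v) = ∑ t, lev k x (t, v) +
      ((if v = trunc k x then 1 else 0) + (if v = sg k s (trunc k x) then 1 else 0)) := by
    rw [← sum_edge s (trunc k x) (sg k s (trunc k x)) v, ← Finset.sum_add_distrib]
    rfl
  rw [h1, trunc_sX]
  have h3 : ∀ a b c : ZMod 2, a + (b + c) + c = a + b := by decide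
  exact h3 _ _ _

lemma etI_sX (k : ℕ) (p : S × V k) (s : S) (x : X) : etI k p (sX s x) = etI k p x := by
  unfold etI
  rw [lev_sX, Pi.add_apply, Pi.add_apply, edge_symm (sg_sg k)]
  have h3 : ∀ a b c : ZMod 2, a + c + (b + c) = a + b := by decide
  exact h3 _ _ _

/-- the key step: the invariants and few differences give orbit equivalence -/
theorem E_of_inv {x y : X} (hth : ∀ k v, thI k v x = thI k v y) (het : ∀ k p, etI k p x = etI k p y)
    {K : ℕ} (hK : ∀ k, K ≤ k → (supp (lev k x + lev k y)).card < 2 ^ k) : E x y := by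
  have hstep : ∀ k, K ≤ k → ∃ w : List S, Red w ∧ w.length < 2 ^ k ∧
      trunc (k + 1) (act sX w x) = trunc (k + 1) y := by
    intro k hk
    have hA : ∀ (s : S) (v : V k), (lev k x + lev k y) (s, sg k s v) = (lev k x + lev k y) (s, v) := by
      intro s v
      have := het k (s, v)
      simp only [etI] at this
      rw [Pi.add_apply, Pi.add_apply]
      have h3 : ∀ a b c d : ZMod 2, a + b = c + d → b + d = a + c := by decide
      exact h3 _ _ _ _ this
    have hB : ∀ v : V k, ∑ s, (lev k x + lev k y) (s, v) =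
        (if v = trunc k x then 1 else 0) + (if v = trunc k y then 1 else 0) := by
      intro v
      have := hth k v
      simp only [thI] at this
      have h4 : ∑ s, (lev k x + lev k y) (s, v) = ∑ s, lev k x (s, v) + ∑ s, lev k y (s, v) := by
        rw [← Finset.sum_add_distrib]; rfl
      rw [h4]
      have h3 : ∀ a b c d : ZMod 2, a + b = c + d → a + c = b + d := by decide
      exact h3 _ _ _ _ this
    have hC : (supp (lev k x + lev k y)).card < 2 * 2 ^ (k + 1) := by
      have := hK k hk
      rw [pow_succ]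
      omega
    obtain ⟨w, hw1, hw2, hw3⟩ := path (sg_sg k) (sg_ne k) (free_sg k) _
      (lev k x + lev k y) rfl hA (trunc k x) (trunc k y) hB hC
    obtain ⟨w', hred, hlen, hw'⟩ := reduce (sg_sg k) w
    have := hK k hk
    refine ⟨w', hred, by omega, ?_⟩
    rw [trunc_act]
    show act (cov (sg k)) w' (trunc k x, lev k x) = (trunc k y, lev k y)
    rw [act_cov, (hw' _).1, (hw' _).2, hw2, hw3, ← add_assoc, fadd_self, zero_add]
  choose! w hred hlen hw using hstep
  have hconst : ∀ k, K ≤ k → w k = w K := by
    intro k hk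
    induction k, hk using Nat.le_induction with
    | base => rfl
    | succ k hk ih =>
      rw [← ih]
      have h1 := hw k hk
      have h2 := trunc_mono (Nat.le_succ (k + 1)) (hw (k + 1) (by omega))
      rw [trunc_act] at h1 h2
      refine uniq (sg_sg (k + 1)) (free_sg (k + 1)) (w (k + 1)) (w k) (trunc (k + 1) x)
        (hred (k + 1) (by omega)) (hred k hk) (h2.trans h1.symm) ?_
      have h3 := hlen k hk
      have h4 := hlen (k + 1) (by omega)
      rw [pow_succ] at h4 ⊢
      rw [pow_succ]
      omega
  refine ⟨w K, eq_of_trunc (K := K) fun k hk => ?_⟩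
  rw [← hconst k hk]
  exact trunc_mono (Nat.le_succ k) (hw k hk)

/-- a generator changes two entries on each level -/
lemma lev_sX_ne {k : ℕ} {s : S} {x : X} {p : S × V k} (h : lev k (sX s x) p ≠ lev k x p) :
    p = (s, trunc k x) ∨ p = (s, sg k s (trunc k x)) := by
  by_contra hcon
  push Not at hcon
  apply h
  rw [lev_sX, Pi.add_apply]
  simp [edge, hcon.1, hcon.2]

lemma measurable_lev (k : ℕ) (p : S × V k) : Measurable fun x : X => lev k x p :=
  measurable_pi_apply (Sum.inr ⟨k, p⟩ : I)

lemma measurable_thI (k : ℕ) (v : V k) : Measurable (thI k v) := by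
  unfold thI
  refine (Finset.measurable_sum _ fun s _ => measurable_lev k (s, v)).add ?_
  exact (measurable_from_top (f := fun u : V k => if v = u then (1 : ZMod 2) else 0)).comp
    (measurable_trunc k)

lemma measurable_etI (k : ℕ) (p : S × V k) : Measurable (etI k p) :=
  (measurable_lev k _).add (measurable_lev k _)

end Pool.Agent.H73.HypE2
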