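import Pool.Agent.H73.HypE2.Inv
import Pool.Agent.H73.HypE2.Category

/-!
# The reduction to `E₂`
-/

open Finset MeasureTheory

namespace Pool.Agent.H73.HypE2

/-! ### `E2` is an equivalence relation -/

lemma E2_refl (a : ℕ → Bool) : E2 a a := by
  unfold E2
  simp only [if_true]
  exact summable_zero

lemma E2_trans {a b c : ℕ → Bool} (h : E2 a b) (h' : E2 b c) : E2 a c := by
  unfold E2 at *
  refine Summable.of_nonneg_of_le (fun n => ?_) (fun n => ?_) (h.add h')
  · split_ifs <;> positivity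
  · have hpos : (0 : ℝ) ≤ 1 / ((n : ℝ) + 1) := by positivity
    by_cases h1 : a n = b n
    · by_cases h2 : b n = c n
      · simp [h1, h2]
      · simp [h1, h2]
    · by_cases h2 : b n = c n
      · rw [← h2]
        simp [h1]
      · rw [if_neg h1, if_neg h2]
        split_ifs
        · positivity
        · linarith

/-! ### blocks -/

/-- the first `2 ^ r` positions of the `m`-th dyadic block -/
def Q (m r : ℕ) : Finset ℕ := Finset.Ico (2 ^ m - 1) (2 ^ m - 1 + 2 ^ r)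

lemma mem_Q {m r n : ℕ} : n ∈ Q m r ↔ 2 ^ m ≤ n + 1 ∧ n + 1 < 2 ^ m + 2 ^ r := by
  have : 0 < 2 ^ m := by positivity
  rw [Q, Finset.mem_Ico]
  omega

lemma log_of_mem_Q {m r n : ℕ} (hr : r ≤ m) (h : n ∈ Q m r) : Nat.log 2 (n + 1) = m := by
  rw [mem_Q] at h
  have h1 : 2 ^ r ≤ 2 ^ m := Nat.pow_le_pow_right (by norm_num) hr
  refine Nat.log_eq_of_pow_le_of_lt_pow h.1 ?_
  rw [pow_succ]
  omega

lemma card_Q (m r : ℕ) : (Q m r).card = 2 ^ r := by
  rw [Q, Nat.card_Ico, Nat.add_sub_cancel_left]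

lemma sum_Q_ge {m r : ℕ} (hr : r ≤ m) :
    (1 / 2 : ℝ) ^ (m - r) / 2 ≤ ∑ n ∈ Q m r, (1 : ℝ) / ((n : ℝ) + 1) := by
  have h1 : ∀ n ∈ Q m r, (1 : ℝ) / 2 ^ (m + 1) ≤ (1 : ℝ) / ((n : ℝ) + 1) := by
    intro n hn
    rw [mem_Q] at hn
    have h1 : 2 ^ r ≤ 2 ^ m := Nat.pow_le_pow_right (by norm_num) hr
    have h2 : n + 1 ≤ 2 ^ (m + 1) := by
      rw [pow_succ]
      omega
    have h3 : (n : ℝ) + 1 ≤ 2 ^ (m + 1) := by exact_mod_cast h2
    exact one_div_le_one_div_of_le (by positivity) h3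
  have h2 := Finset.card_nsmul_le_sum _ _ _ h1
  rw [card_Q, nsmul_eq_mul] at h2
  refine le_trans (le_of_eq ?_) h2
  push_cast
  rw [one_div_pow, ← Nat.sub_add_cancel hr, Nat.add_sub_cancel, pow_succ, pow_add]
  field_simp

lemma sum_Q_le {m r : ℕ} (hr : r ≤ m) :
    ∑ n ∈ Q m r, (1 : ℝ) / ((n : ℝ) + 1) ≤ (1 / 2 : ℝ) ^ (m - r) := by
  have h1 : ∀ n ∈ Q m r, (1 : ℝ) / ((n : ℝ) + 1) ≤ (1 : ℝ) / 2 ^ m := by
    intro n hn
    rw [mem_Q] at hn
    have h3 : (2 : ℝ) ^ m ≤ (n : ℝ) + 1 := by exact_mod_cast hn.1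
    exact one_div_le_one_div_of_le (by positivity) h3
  have h2 := Finset.sum_le_card_nsmul _ _ _ h1
  rw [card_Q, nsmul_eq_mul] at h2
  refine le_trans h2 (le_of_eq ?_)
  push_cast
  rw [one_div_pow, ← Nat.sub_add_cancel hr, Nat.add_sub_cancel, pow_add]
  field_simp

lemma le_of_mem_Q {m r n : ℕ} (h : n ∈ Q m r) : m ≤ n := by
  rw [mem_Q] at h
  have : m < 2 ^ m := Nat.lt_two_pow_self
  omega

/-! ### features -/

/-- indices of the features -/
abbrev J := (Σ k, S × V k) ⊕ ((Σ k, V k) ⊕ (Σ k, S × V k))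

/-- numbering the features -/
noncomputable def enc : J → ℕ := Classical.choose (Countable.exists_injective_nat J)

lemma enc_inj : Function.Injective enc := Classical.choose_spec (Countable.exists_injective_nat J)

/-- the features -/
noncomputable def val (x : X) : J → ZMod 2
  | Sum.inl ⟨k, p⟩ => lev k x p
  | Sum.inr (Sum.inl ⟨k, v⟩) => thI k v x
  | Sum.inr (Sum.inr ⟨k, p⟩) => etI k p x

lemma measurable_val (j : J) : Measurable fun x => val x j := by
  rcases j with ⟨k, p⟩ | ⟨k, v⟩ | ⟨k, p⟩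
  · exact measurable_lev k p
  · exact measurable_thI k v
  · exact measurable_etI k p

/-- the block position condition -/
def cond : J → ℕ → Prop
  | Sum.inl ⟨k, _⟩, n => (Nat.unpair (Nat.log 2 (n + 1))).2 = k ∧
      n + 1 < 2 ^ (Nat.log 2 (n + 1)) + 2 ^ (Nat.log 2 (n + 1) - k)
  | Sum.inr _, _ => True

/-- the positions of a feature -/
def W (j : J) : Set ℕ := {n | (Nat.unpair (Nat.log 2 (n + 1))).1 = enc j ∧ cond j n}

lemma W_uniq {i j : J} {n : ℕ} (hi : n ∈ W i) (hj : n ∈ W j) : i = j :=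
  enc_inj (hi.1.symm.trans hj.1)

lemma W_inl (k : ℕ) (p : S × V k) (n : ℕ) : n ∈ W (Sum.inl ⟨k, p⟩) ↔
    n ∈ Q (Nat.pair (enc (Sum.inl ⟨k, p⟩)) k) (Nat.pair (enc (Sum.inl ⟨k, p⟩)) k - k) := by
  constructor
  · rintro ⟨h1, h2, h3⟩
    have h4 : Nat.log 2 (n + 1) = Nat.pair (enc (Sum.inl ⟨k, p⟩)) k := by
      rw [← h1, ← h2, Nat.pair_unpair]
    rw [h4] at h3
    rw [mem_Q]
    refine ⟨?_, h3⟩
    rw [← h4]
    exact Nat.pow_log_le_self 2 (by omega)
  · intro h
    have h4 := log_of_mem_Q (Nat.sub_le _ _) h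
    rw [mem_Q] at h
    refine ⟨?_, ?_, ?_⟩
    · rw [h4, Nat.unpair_pair]
    · rw [h4, Nat.unpair_pair]
    · rw [h4]
      exact h.2

lemma W_inr (j) (b n : ℕ) (h : n ∈ Q (Nat.pair (enc (Sum.inr j)) b) (Nat.pair (enc (Sum.inr j)) b)) :
    n ∈ W (Sum.inr j) := by
  have h4 := log_of_mem_Q le_rfl h
  refine ⟨?_, trivial⟩
  rw [h4, Nat.unpair_pair]

open Classical in
/-- the reduction -/
noncomputable def red (x : X) (n : ℕ) : Bool :=
  if h : ∃ j, n ∈ W j then decide (val x h.choose = 1) else false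

lemma red_eq {x : X} {n : ℕ} {j : J} (h : n ∈ W j) : red x n = decide (val x j = 1) := by
  have h1 : ∃ j, n ∈ W j := ⟨j, h⟩
  rw [red, dif_pos h1, W_uniq h1.choose_spec h]

lemma red_eq_false {x : X} {n : ℕ} (h : ¬ ∃ j, n ∈ W j) : red x n = false := by
  rw [red, dif_neg h]

lemma dec_iff {a b : ZMod 2} : decide (a = 1) = decide (b = 1) ↔ a = b := by
  revert a b
  decide

lemma measurable_red : Measurable red := by
  rw [measurable_pi_iff]
  intro n
  by_cases h : ∃ j, n ∈ W j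
  · obtain ⟨j, hj⟩ := h
    have : (fun x => red x n) = fun x => decide (val x j = 1) := by
      funext x
      exact red_eq hj
    rw [this]
    exact (measurable_from_top (f := fun a : ZMod 2 => decide (a = 1))).comp (measurable_val j)
  · have : (fun x => red x n) = fun _ => false := by
      funext x
      exact red_eq_false h
    rw [this]
    exact measurable_const

/-! ### equivalent points have equivalent images -/

lemma mem_of_ne {x y : X} {n : ℕ} (h : red x n ≠ red y n) : ∃ j, n ∈ W j ∧ val x j ≠ val y j := by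
  by_cases hj : ∃ j, n ∈ W j
  · obtain ⟨j, hj⟩ := hj
    refine ⟨j, hj, fun hv => h ?_⟩
    rw [red_eq hj, red_eq hj, hv]
  · exact absurd ((red_eq_false hj).trans (red_eq_false hj).symm) h

/-- the block of a level entry -/
noncomputable def QI (k : ℕ) (p : S × V k) : Finset ℕ :=
  Q (Nat.pair (enc (Sum.inl ⟨k, p⟩)) k) (Nat.pair (enc (Sum.inl ⟨k, p⟩)) k - k)

lemma sum_QI_le (k : ℕ) (p : S × V k) : ∑ n ∈ QI k p, (1 : ℝ) / ((n : ℝ) + 1) ≤ (1 / 2 : ℝ) ^ k := by
  have h := sum_Q_le (m := Nat.pair (enc (Sum.inl ⟨k, p⟩)) k)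
    (r := Nat.pair (enc (Sum.inl ⟨k, p⟩)) k - k) (Nat.sub_le _ _)
  rwa [Nat.sub_sub_self (Nat.right_le_pair _ _)] at h

lemma sum_QI_ge (k : ℕ) (p : S × V k) :
    (1 / 2 : ℝ) ^ k / 2 ≤ ∑ n ∈ QI k p, (1 : ℝ) / ((n : ℝ) + 1) := by
  have h := sum_Q_ge (m := Nat.pair (enc (Sum.inl ⟨k, p⟩)) k)
    (r := Nat.pair (enc (Sum.inl ⟨k, p⟩)) k - k) (Nat.sub_le _ _)
  rwa [Nat.sub_sub_self (Nat.right_le_pair _ _)] at h

lemma le_of_mem_QI {k n : ℕ} {p : S × V k} (h : n ∈ QI k p) : k ≤ n :=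
  (Nat.right_le_pair _ _).trans (le_of_mem_Q h)

lemma E2_red_sX (s : S) (x : X) : E2 (red x) (red (sX s x)) := by
  classical
  set p1 : ∀ k, S × V k := fun k => (s, trunc k x)
  set p2 : ∀ k, S × V k := fun k => (s, sg k s (trunc k x))
  have hmem : ∀ n, red x n ≠ red (sX s x) n → ∃ k, n ∈ QI k (p1 k) ∨ n ∈ QI k (p2 k) := by
    intro n hn
    obtain ⟨j, hj, hv⟩ := mem_of_ne hn
    rcases j with ⟨k, p⟩ | ⟨k, v⟩ | ⟨k, p⟩
    · have hv' : lev k (sX s x) p ≠ lev k x p := fun h => hv h.symm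
      refine ⟨k, ?_⟩
      have hj' := (W_inl k p n).1 hj
      rcases lev_sX_ne hv' with rfl | rfl
      · exact Or.inl hj'
      · exact Or.inr hj'
    · exact absurd (thI_sX k v s x).symm hv
    · exact absurd (etI_sX k p s x).symm hv
  refine summable_of_sum_le (c := 4) (fun n => by split_ifs <;> positivity) fun u => ?_
  set K := u.sup id + 1
  have hterm : ∀ n ∈ u, (if red x n = red (sX s x) n then (0 : ℝ) else 1 / ((n : ℝ) + 1)) ≤
      ∑ k ∈ Finset.range K, ((if n ∈ QI k (p1 k) then (1 : ℝ) / ((n : ℝ) + 1) else 0) +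
        (if n ∈ QI k (p2 k) then (1 : ℝ) / ((n : ℝ) + 1) else 0)) := by
    intro n hn
    have hnn : ∀ k ∈ Finset.range K, (0 : ℝ) ≤
        ((if n ∈ QI k (p1 k) then (1 : ℝ) / ((n : ℝ) + 1) else 0) +
        (if n ∈ QI k (p2 k) then (1 : ℝ) / ((n : ℝ) + 1) else 0)) := by
      intro k _
      split_ifs <;> positivity
    by_cases h : red x n = red (sX s x) n
    · rw [if_pos h]
      exact Finset.sum_nonneg hnn
    · rw [if_neg h]
      obtain ⟨k, hk⟩ := hmem n h
      have hkn : k ≤ n := by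
        rcases hk with hk | hk
        · exact le_of_mem_QI hk
        · exact le_of_mem_QI hk
      have hnK : n ≤ u.sup id := Finset.le_sup (f := id) hn
      have hkK : k ∈ Finset.range K := Finset.mem_range.2 (by omega)
      refine le_trans ?_ (Finset.single_le_sum hnn hkK)
      rcases hk with hk | hk
      · rw [if_pos hk]
        split_ifs
        · have : (0 : ℝ) ≤ 1 / ((n : ℝ) + 1) := by positivity
          linarith
        · linarith
      · rw [if_pos hk]
        split_ifs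
        · have : (0 : ℝ) ≤ 1 / ((n : ℝ) + 1) := by positivity
          linarith
        · linarith
  have hsum : ∀ (T : Finset ℕ), ∑ n ∈ u, (if n ∈ T then (1 : ℝ) / ((n : ℝ) + 1) else 0) ≤
      ∑ n ∈ T, (1 : ℝ) / ((n : ℝ) + 1) := by
    intro T
    rw [← Finset.sum_filter]
    refine Finset.sum_le_sum_of_subset_of_nonneg ?_ (fun _ _ _ => by positivity)
    intro n hn
    exact (Finset.mem_filter.1 hn).2
  calc ∑ n ∈ u, (if red x n = red (sX s x) n then (0 : ℝ) else 1 / ((n : ℝ) + 1))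
      ≤ ∑ n ∈ u, ∑ k ∈ Finset.range K, ((if n ∈ QI k (p1 k) then (1 : ℝ) / ((n : ℝ) + 1) else 0) +
        (if n ∈ QI k (p2 k) then (1 : ℝ) / ((n : ℝ) + 1) else 0)) := Finset.sum_le_sum hterm
    _ = ∑ k ∈ Finset.range K, ((∑ n ∈ u, if n ∈ QI k (p1 k) then (1 : ℝ) / ((n : ℝ) + 1) else 0) +
        (∑ n ∈ u, if n ∈ QI k (p2 k) then (1 : ℝ) / ((n : ℝ) + 1) else 0)) := by
      rw [Finset.sum_comm]
      exact Finset.sum_congr rfl fun k _ => Finset.sum_add_distrib
    _ ≤ ∑ k ∈ Finset.range K, 2 * (1 / 2 : ℝ) ^ k := by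
      refine Finset.sum_le_sum fun k _ => ?_
      have h1 := (hsum (QI k (p1 k))).trans (sum_QI_le k (p1 k))
      have h2 := (hsum (QI k (p2 k))).trans (sum_QI_le k (p2 k))
      linarith
    _ ≤ 4 := by
      rw [← Finset.mul_sum]
      have := sum_geometric_two_le K
      linarith

lemma E2_red_of_E {x y : X} (h : E x y) : E2 (red x) (red y) := by
  obtain ⟨w, rfl⟩ := h
  induction w generalizing x with
  | nil => exact E2_refl _
  | cons s w ih => exact E2_trans (E2_red_sX s x) ih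

/-! ### conversely -/

lemma E_of_E2_red {x y : X} (h : E2 (red x) (red y)) : E x y := by
  classical
  unfold E2 at h
  rw [summable_iff_vanishing_norm] at h
  obtain ⟨s0, hs0⟩ := h (1 / 2) (by norm_num)
  set N := s0.sup id + 1
  have hsmall : ∀ t : Finset ℕ, (∀ n ∈ t, N ≤ n) → (∀ n ∈ t, red x n ≠ red y n) →
      ∑ n ∈ t, (1 : ℝ) / ((n : ℝ) + 1) < 1 / 2 := by
    intro t ht hne
    have hdisj : Disjoint t s0 := by
      rw [Finset.disjoint_left]
      intro n hn hn0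
      have h1 := ht n hn
      have h2 : n ≤ s0.sup id := Finset.le_sup (f := id) hn0
      omega
    have h1 := hs0 t hdisj
    have h2 : ∑ n ∈ t, (if red x n = red y n then (0 : ℝ) else 1 / ((n : ℝ) + 1)) =
        ∑ n ∈ t, (1 : ℝ) / ((n : ℝ) + 1) :=
      Finset.sum_congr rfl fun n hn => if_neg (hne n hn)
    rw [h2] at h1
    exact (le_abs_self _).trans_lt h1
  have hinv : ∀ j, val x (Sum.inr j) = val y (Sum.inr j) := by
    intro j
    by_contra hj
    set m := Nat.pair (enc (Sum.inr j)) N with hm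
    have h1 := hsmall (Q m m) (fun n hn => (Nat.right_le_pair _ _).trans (le_of_mem_Q hn)) (by
      intro n hn
      have hW := W_inr j N n hn
      rw [red_eq hW, red_eq hW]
      intro h
      exact hj (dec_iff.1 h))
    have h2 := sum_Q_ge (m := m) (r := m) le_rfl
    rw [Nat.sub_self, pow_zero] at h2
    linarith
  refine E_of_inv (K := N) (fun k v => hinv (Sum.inl ⟨k, v⟩)) (fun k p => hinv (Sum.inr ⟨k, p⟩)) ?_
  intro k hk
  by_contra hcard
  push Not at hcard
  have hdisj : ∀ p ∈ supp (lev k x + lev k y), ∀ q ∈ supp (lev k x + lev k y), p ≠ q →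
      Disjoint (QI k p) (QI k q) := by
    intro p _ q _ hpq
    rw [Finset.disjoint_left]
    intro n hn hn'
    have h1 := W_uniq ((W_inl k p n).2 hn) ((W_inl k q n).2 hn')
    have h2 := Sum.inl.inj h1
    apply hpq
    simpa using h2
  have h1 := hsmall ((supp (lev k x + lev k y)).biUnion (QI k)) ?_ ?_
  · rw [Finset.sum_biUnion hdisj] at h1
    have h2 : ∀ p ∈ supp (lev k x + lev k y), (1 / 2 : ℝ) ^ k / 2 ≤
        ∑ n ∈ QI k p, (1 : ℝ) / ((n : ℝ) + 1) := fun p _ => sum_QI_ge k p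
    have h3 := Finset.card_nsmul_le_sum _ _ _ h2
    rw [nsmul_eq_mul] at h3
    have h4 : (2 : ℝ) ^ k ≤ ((supp (lev k x + lev k y)).card : ℝ) := by exact_mod_cast hcard
    have h5 : (0 : ℝ) < (1 / 2 : ℝ) ^ k / 2 := by positivity
    have h6 : (2 : ℝ) ^ k * ((1 / 2 : ℝ) ^ k / 2) = 1 / 2 := by
      rw [one_div_pow]
      field_simp
    have h7 := mul_le_mul_of_nonneg_right h4 h5.le
    linarith
  · intro n hn
    rw [Finset.mem_biUnion] at hn
    obtain ⟨p, -, hp⟩ := hn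
    exact hk.trans (le_of_mem_QI hp)
  · intro n hn
    rw [Finset.mem_biUnion] at hn
    obtain ⟨p, hps, hp⟩ := hn
    have hW := (W_inl k p n).2 hp
    rw [red_eq hW, red_eq hW]
    intro h
    have h1 : lev k x p = lev k y p := dec_iff.1 h
    rw [mem_supp, Pi.add_apply, h1, CharTwo.add_self_eq_zero] at hps
    exact hps rfl

theorem red_iff (x y : X) : E x y ↔ E2 (red x) (red y) := ⟨E2_red_of_E, E_of_E2_red⟩

end Pool.Agent.H73.HypE2
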