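import Pool.Agent.H73.HypE2.Graph

/-!
# The tower of homology covers and its limit space
-/

open Finset MeasureTheory

namespace Pool.Agent.H73.HypE2

/-- the vertex sets of the tower -/
def V : ℕ → Type
  | 0 => S → ZMod 2
  | k + 1 => V k × (S × V k → ZMod 2)

instance V.finite (k : ℕ) : Finite (V k) := by
  induction k with
  | zero => exact inferInstanceAs (Finite (S → ZMod 2))
  | succ k ih => exact inferInstanceAs (Finite (V k × (S × V k → ZMod 2)))

noncomputable instance V.fintype (k : ℕ) : Fintype (V k) := Fintype.ofFinite _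

noncomputable instance V.decEq (k : ℕ) : DecidableEq (V k) := Classical.decEq _

/-- the involutions -/
noncomputable def sg : (k : ℕ) → S → V k → V k
  | 0 => fun s (v : S → ZMod 2) => (fun t => v t + if t = s then 1 else 0 : S → ZMod 2)
  | k + 1 => fun s (v : V k × (S × V k → ZMod 2)) => (cov (sg k) s v : V k × (S × V k → ZMod 2))

lemma sg_sg (k : ℕ) : ∀ (s : S) (v : V k), sg k s (sg k s v) = v := by
  induction k with
  | zero =>
    intro s v
    funext t
    show (v : S → ZMod 2) t + (if t = s then 1 else 0) + (if t = s then 1 else 0) = (v : S → ZMod 2) t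
    rw [add_assoc, CharTwo.add_self_eq_zero, add_zero]
  | succ k ih =>
    intro s v
    exact cov_cov ih s v

lemma sg_ne (k : ℕ) : ∀ (s : S) (v : V k), sg k s v ≠ v := by
  induction k with
  | zero =>
    intro s v h
    have h1 : (v : S → ZMod 2) s + (if s = s then 1 else 0) = (v : S → ZMod 2) s := congrFun h s
    simp at h1
  | succ k ih =>
    intro s v
    exact cov_ne ih s v

lemma free_sg (k : ℕ) : Free (sg k) (2 ^ (k + 1)) := by
  induction k with
  | zero =>
    intro w hw hw0 hlen v h
    match w, hw0, hlen with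
    | [s], _, _ => exact sg_ne 0 s v h
  | succ k ih =>
    have := free_cov (sg_sg k) (sg_ne k) ih
    rw [pow_succ, mul_comm]
    exact this

/-- the index set -/
abbrev I := S ⊕ (Σ k, S × V k)

/-- the space -/
abbrev X := I → ZMod 2

/-- the level `k` part -/
def lev (k : ℕ) (x : X) : S × V k → ZMod 2 := fun p => x (Sum.inr ⟨k, p⟩)

/-- truncation -/
def trunc : (k : ℕ) → X → V k
  | 0, x => (fun s => x (Sum.inl s) : S → ZMod 2)
  | k + 1, x => ((trunc k x, lev k x) : V k × (S × V k → ZMod 2))

lemma trunc_succ (k : ℕ) (x : X) : trunc (k + 1) x = ((trunc k x, lev k x) : V k × (S × V k → ZMod 2)) :=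
  rfl

lemma trunc_succ_iff {k : ℕ} {x y : X} :
    trunc (k + 1) x = trunc (k + 1) y ↔ trunc k x = trunc k y ∧ lev k x = lev k y := by
  rw [trunc_succ, trunc_succ]
  exact Prod.mk.injEq .. ▸ Iff.rfl

lemma trunc_mono {k l : ℕ} (hkl : k ≤ l) {x y : X} (h : trunc l x = trunc l y) :
    trunc k x = trunc k y := by
  induction l, hkl using Nat.le_induction with
  | base => exact h
  | succ l hl ih => exact ih (trunc_succ_iff.1 h).1

lemma eq_of_trunc {K : ℕ} {x y : X} (h : ∀ k, K ≤ k → trunc k x = trunc k y) : x = y := by
  funext i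
  rcases i with s | ⟨k, p⟩
  · have h1 := trunc_mono (Nat.zero_le K) (h K le_rfl)
    exact congrFun h1 s
  · have h1 := trunc_mono (le_max_left (k + 1) K) (h (max (k + 1) K) (le_max_right _ _))
    exact congrFun (trunc_succ_iff.1 h1).2 p

/-- the involutions on the space -/
noncomputable def sX (s : S) (x : X) : X
  | Sum.inl t => x (Sum.inl t) + if t = s then 1 else 0
  | Sum.inr ⟨k, p⟩ => x (Sum.inr ⟨k, p⟩) + edge s (trunc k x) (sg k s (trunc k x)) p

lemma lev_sX (k : ℕ) (s : S) (x : X) :
    lev k (sX s x) = lev k x + edge s (trunc k x) (sg k s (trunc k x)) := rfl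

lemma trunc_sX (k : ℕ) (s : S) (x : X) : trunc k (sX s x) = sg k s (trunc k x) := by
  induction k with
  | zero => rfl
  | succ k ih =>
    rw [trunc_succ, trunc_succ, ih, lev_sX]
    rfl

lemma sX_sX (s : S) (x : X) : sX s (sX s x) = x := by
  refine eq_of_trunc (K := 0) fun k _ => ?_
  rw [trunc_sX, trunc_sX, sg_sg]

lemma trunc_act (k : ℕ) (w : List S) (x : X) :
    trunc k (act sX w x) = act (sg k) w (trunc k x) := by
  induction w generalizing x with
  | nil => rfl
  | cons s w ih =>
    show trunc k (act sX w (sX s x)) = act (sg k) w (sg k s (trunc k x))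
    rw [ih, trunc_sX]

lemma free_sX (w : List S) (hw : Red w) (hw0 : w ≠ []) (x : X) : act sX w x ≠ x := by
  intro h
  have h1 : act (sg w.length) w (trunc w.length x) = trunc w.length x := by
    rw [← trunc_act, h]
  refine free_sg w.length w hw hw0 ?_ _ h1
  calc w.length < 2 ^ w.length := Nat.lt_two_pow_self
    _ ≤ 2 ^ (w.length + 1) := Nat.pow_le_pow_right (by norm_num) (by omega)

/-- the orbit equivalence relation -/
def E (x y : X) : Prop := ∃ w, act sX w x = y

lemma E_equiv : Equivalence E where
  refl x := ⟨[], rfl⟩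
  symm := by
    rintro x y ⟨w, rfl⟩
    exact ⟨w.reverse, act_reverse sX_sX w x⟩
  trans := by
    rintro x y z ⟨w, rfl⟩ ⟨w', rfl⟩
    exact ⟨w ++ w', act_append _ _ _ _⟩

lemma E_countable (x : X) : {y | E x y}.Countable := by
  have : {y | E x y} = Set.range fun w => act sX w x := rfl
  rw [this]
  exact Set.countable_range _

/-! ### measurability -/

lemma measurableSet_cyl (k : ℕ) (v : V k) : MeasurableSet {x : X | trunc k x = v} := by
  induction k with
  | zero =>
    have : {x : X | trunc 0 x = v} = ⋂ s : S, {x : X | x (Sum.inl s) = (v : S → ZMod 2) s} := by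
      ext x
      rw [Set.mem_iInter]
      exact funext_iff (f := (trunc 0 x : S → ZMod 2)) (g := (v : S → ZMod 2))
    rw [this]
    exact MeasurableSet.iInter fun s => measurable_pi_apply (Sum.inl s : I) (measurableSet_singleton _)
  | succ k ih =>
    obtain ⟨v1, v2⟩ := v
    have : {x : X | trunc (k + 1) x = ((v1, v2) : V k × (S × V k → ZMod 2))} =
        {x : X | trunc k x = v1} ∩ ⋂ p : S × V k, {x : X | x (Sum.inr ⟨k, p⟩) = v2 p} := by
      ext x
      rw [Set.mem_inter_iff, Set.mem_iInter]
      have h : (((trunc k x, lev k x) : V k × (S × V k → ZMod 2)) = (v1, v2)) ↔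
          trunc k x = v1 ∧ lev k x = v2 := Prod.mk_inj
      exact h.trans (and_congr Iff.rfl funext_iff)
    rw [this]
    exact (ih v1).inter (MeasurableSet.iInter fun p =>
      measurable_pi_apply (Sum.inr ⟨k, p⟩ : I) (measurableSet_singleton _))

instance (k : ℕ) : MeasurableSpace (V k) := ⊤

lemma measurable_trunc (k : ℕ) : Measurable (trunc k) :=
  measurable_to_countable' fun v => measurableSet_cyl k v

lemma measurable_sX (s : S) : Measurable (sX s) := by
  rw [measurable_pi_iff]
  rintro (t | ⟨k, p⟩)
  · exact (measurable_pi_apply _).add measurable_const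
  · refine (measurable_pi_apply (Sum.inr ⟨k, p⟩ : I)).add ?_
    exact (measurable_from_top (f := fun v : V k => edge s v (sg k s v) p)).comp (measurable_trunc k)

lemma measurable_act (w : List S) : Measurable (act sX w) := by
  induction w with
  | nil => exact measurable_id
  | cons s w ih => exact ih.comp (measurable_sX s)

lemma measurableSet_E : MeasurableSet {p : X × X | E p.1 p.2} := by
  have : {p : X × X | E p.1 p.2} = ⋃ w : List S, {p : X × X | act sX w p.1 = p.2} := by
    ext p
    rw [Set.mem_iUnion]
    rfl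
  rw [this]
  refine MeasurableSet.iUnion fun w => ?_
  exact measurableSet_eq_fun ((measurable_act w).comp measurable_fst) measurable_snd

end Pool.Agent.H73.HypE2
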